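import Mathlib

set_option autoImplicit false

namespace Pool.Agent.Results.MP_291982_ag.SeparableGauss

open MvPolynomial

/-- The algebraic closure `k` of the field with `p` elements. -/
abbrev K (p : ℕ) [Fact p.Prime] := AlgebraicClosure (ZMod p)

/-- The polynomial `F` with coefficients extended to `k`. -/
noncomputable def ext {p n : ℕ} [Fact p.Prime] (F : MvPolynomial (Fin (n + 1)) (ZMod p)) :
    MvPolynomial (Fin (n + 1)) (K p) := map (algebraMap (ZMod p) (K p)) F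

/-- `F` is a non-constant form without repeated factors and is Frobenius nonclassical
(`q = p`): it divides `∑ x_i ^ q F_i`. -/
def FrobNonclassical {p n : ℕ} [Fact p.Prime] (F : MvPolynomial (Fin (n + 1)) (ZMod p)) : Prop :=
  (∃ d, 0 < d ∧ F.IsHomogeneous d) ∧ Squarefree (ext F) ∧ F ∣ ∑ i, X i ^ p * pderiv i F

/-- On every component `G = 0` the Gauss map equals `(a_0 ^ p : … : a_n ^ p)` for forms `a_i` of
one degree over `k`, not all vanishing on the component. -/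
def PowerGauss {p n : ℕ} [Fact p.Prime] (F : MvPolynomial (Fin (n + 1)) (ZMod p)) : Prop :=
  ∀ G, Prime G → G ∣ ext F → ∃ (d : ℕ) (a : Fin (n + 1) → MvPolynomial (Fin (n + 1)) (K p)),
    (∀ i, (a i).IsHomogeneous d) ∧ (∃ i, ¬ G ∣ a i) ∧
      ∀ i j, G ∣ pderiv i (ext F) * a j ^ p - pderiv j (ext F) * a i ^ p

/-- A form evaluated along the parametrised curve `s ↦ (f_0 (s) : … : f_n (s))`, over `k`. -/
noncomputable def along {p n : ℕ} [Fact p.Prime] (f : Fin (n + 1) → Polynomial (ZMod p))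
    (H : MvPolynomial (Fin (n + 1)) (ZMod p)) : Polynomial (K p) :=
  (aeval f H).map (algebraMap (ZMod p) (K p))

/-- `f` parametrises a rational curve defined over the prime field and lying on `F = 0`, and some
ratio `F_i / F_j` is defined on it and is not a `p`-th power in `k (s)`. -/
def SeparableCurve {p n : ℕ} [Fact p.Prime] (F : MvPolynomial (Fin (n + 1)) (ZMod p))
    (f : Fin (n + 1) → Polynomial (ZMod p)) : Prop :=
  (∃ i j, LinearIndependent (K p) ![along f (X i), along f (X j)]) ∧ along f F = 0 ∧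
    ∃ i j, along f (pderiv j F) ≠ 0 ∧ ¬ ∃ a b : Polynomial (K p), b ≠ 0 ∧
      along f (pderiv i F) * b ^ p = along f (pderiv j F) * a ^ p

section
variable (A : Type) [CommRing A]

/-- `x_i ^ 5 - x_i t ^ 4` -/
noncomputable def u (i : Fin 4) : MvPolynomial (Fin 4) A := X i ^ 5 - X i * X 3 ^ 4

/-- the surface -/
noncomputable def FF : MvPolynomial (Fin 4) A :=
  (X 3 ^ 5) ^ 2 * (u A 0 * u A 2 - u A 1 ^ 2) + X 3 ^ 5 * X 0 ^ 5 * (u A 0 * u A 1)
    - (X 0 ^ 5) ^ 2 * u A 0 ^ 2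

variable [CharP A 5]

lemma h5 : (5 : MvPolynomial (Fin 4) A) = 0 := by
  exact_mod_cast CharP.cast_eq_zero (MvPolynomial (Fin 4) A) 5

lemma d5 (D : Derivation A (MvPolynomial (Fin 4) A) (MvPolynomial (Fin 4) A))
    (a : MvPolynomial (Fin 4) A) : D (a ^ 5) = 0 := by
  rw [Derivation.leibniz_pow, nsmul_eq_mul, Nat.cast_ofNat, h5, zero_mul]

lemma du (D : Derivation A (MvPolynomial (Fin 4) A) (MvPolynomial (Fin 4) A)) (i : Fin 4) :
    D (u A i) = X i * X 3 ^ 3 * D (X 3) - X 3 ^ 4 * D (X i) := by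
  rw [u, map_sub, d5, Derivation.leibniz, Derivation.leibniz_pow]
  simp only [smul_eq_mul, nsmul_eq_mul, Nat.cast_ofNat]
  linear_combination (-(X i * X 3 ^ 3 * D (X 3))) * h5 A

lemma dF (D : Derivation A (MvPolynomial (Fin 4) A) (MvPolynomial (Fin 4) A)) :
    D (FF A) = (X 3 ^ 5) ^ 2 * (u A 0 * D (u A 2) + u A 2 * D (u A 0) - 2 * u A 1 * D (u A 1))
      + X 3 ^ 5 * X 0 ^ 5 * (u A 0 * D (u A 1) + u A 1 * D (u A 0))
      - (X 0 ^ 5) ^ 2 * (2 * u A 0 * D (u A 0)) := by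
  simp only [FF, sq, map_sub, map_add, Derivation.leibniz, d5, smul_eq_mul]
  ring

lemma F2 : pderiv 2 (FF A) = -(X 3 ^ 14 * u A 0) := by
  rw [dF, du, du, du]
  simp
  ring

lemma F1 : pderiv 1 (FF A) = 2 * X 3 ^ 14 * u A 1 - X 3 ^ 9 * X 0 ^ 5 * u A 0 := by
  rw [dF, du, du, du]
  simp
  ring

lemma nc : ∑ i, X i ^ 5 * pderiv i (FF A) = FF A * (-2 * X 3 ^ 4) := by
  simp only [Fin.sum_univ_four, dF, du]
  simp [FF, u]
  ring

end

instance : Fact (Nat.Prime 5) := ⟨by norm_num⟩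

lemma extF : ext (p := 5) (n := 3) (FF (ZMod 5)) = FF (K 5) := by
  simp [ext, FF, u]

lemma ddvd {G F : MvPolynomial (Fin 4) (K 5)} (h : G * G ∣ F) (i : Fin 4) : G ∣ pderiv i F := by
  obtain ⟨r, rfl⟩ := h
  refine ⟨2 * r * pderiv i G + G * pderiv i r, ?_⟩
  simp only [Derivation.leibniz, smul_eq_mul]
  ring

lemma two : IsUnit (2 : MvPolynomial (Fin 4) (K 5)) :=
  IsUnit.of_mul_eq_one 3 (by linear_combination h5 (K 5))

lemma exc : ∃ c : K 5, c ^ 5 - c = 1 := by
  obtain ⟨c, hc⟩ := IsAlgClosed.exists_root (Polynomial.X ^ 5 - Polynomial.X - 1 : Polynomial (K 5))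
    (by rw [show (Polynomial.X ^ 5 - Polynomial.X - 1 : Polynomial (K 5)).degree = 5 by
      compute_degree!]; decide)
  exact ⟨c, by simpa [sub_eq_zero] using hc⟩

lemma sqf : Squarefree (FF (K 5)) := by
  have e0 : eval ![1, 0, 0, 0] (FF (K 5)) ≠ 0 := by simp [FF, u]
  have hne : FF (K 5) ≠ 0 := fun e => e0 (by rw [e, map_zero])
  rw [squarefree_iff_irreducible_sq_not_dvd_of_ne_zero hne]
  intro g hg h
  have hp := hg.prime
  have ht : ¬ g ∣ X 3 := by
    intro e
    obtain ⟨r, hr⟩ := (hg.associated_of_dvd X_prime.irreducible e).symm.dvd.trans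
      ((dvd_mul_right g g).trans h)
    exact e0 (by rw [hr]; simp)
  have h2 := ddvd h 2
  have h1 := ddvd h 1
  rw [F2, dvd_neg] at h2
  have hu := (hp.dvd_or_dvd h2).resolve_left fun e => ht (hp.dvd_of_dvd_pow e)
  rw [F1] at h1
  have h3 := (dvd_sub_left (hu.mul_left _)).1 h1
  have hv : g ∣ u (K 5) 1 := (hp.dvd_or_dvd h3).resolve_left fun e =>
    (hp.dvd_or_dvd e).elim (fun e => hp.not_unit (isUnit_of_dvd_unit e two))
      fun e => ht (hp.dvd_of_dvd_pow e)
  obtain ⟨c, hc⟩ := exc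
  have key : ∀ a : K 5, ¬ g ∣ 1 * X 0 + -(C a * X 3) := by
    intro a e
    have hi : Irreducible (1 * X 0 + -(C a * X 3) : MvPolynomial (Fin 4) (K 5)) := by
      refine irreducible_mul_X_add _ _ 0 one_ne_zero (by simp) ?_ isRelPrime_one_left
      rw [vars_neg]
      intro h
      have := vars_mul _ _ h
      simp [vars_X] at this
    obtain ⟨r, hr⟩ := (hg.associated_of_dvd hi e).symm.dvd.trans hv
    have := congrArg (eval ![a, c, 0, 1]) hr
    simp [u, hc] at this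
  have hf : u (K 5) 0 = (1 * X 0 + -(C 0 * X 3)) * (1 * X 0 + -(C 1 * X 3)) *
      (1 * X 0 + -(C (-1) * X 3)) * (1 * X 0 + -(C 2 * X 3)) * (1 * X 0 + -(C (-2) * X 3)) := by
    simp only [u, map_zero, map_one, map_neg, map_ofNat]
    linear_combination (X 0 ^ 3 * X 3 ^ 2 - X 0 * X 3 ^ 4) * h5 (K 5)
  rw [hf] at hu
  simp only [hp.dvd_mul, key, or_self] at hu

lemma fac (φ : MvPolynomial (Fin 4) (K 5) →+* K 5) (F : MvPolynomial (Fin 4) (K 5)) :
    F ≠ 0 → φ F = 0 → ∃ G, Prime G ∧ G ∣ F ∧ φ G = 0 := by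
  induction F using UniqueFactorizationMonoid.induction_on_prime with
  | h₁ => exact fun h => absurd rfl h
  | h₂ x hx => exact fun _ h => absurd h (hx.map φ).ne_zero
  | h₃ a p ha hp ih =>
    intro _ h
    rw [map_mul] at h
    rcases mul_eq_zero.1 h with h | h
    · exact ⟨p, hp, dvd_mul_right _ _, h⟩
    · obtain ⟨G, h1, h2, h3⟩ := ih ha h
      exact ⟨G, h1, h2.mul_left _, h3⟩

lemma q1 : ¬ PowerGauss (p := 5) (n := 3) (FF (ZMod 5)) := by
  intro h
  obtain ⟨c, hc⟩ := exc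
  obtain ⟨G, hp, ⟨R, hR⟩, h0⟩ := fac (eval ![c, c ^ 2, c ^ 3, 1]) (FF (K 5)) sqf.ne_zero (by
    simp [FF, u]
    ring)
  obtain ⟨-, a, -, ⟨i, hi⟩, ha⟩ := h G hp (by rw [extF]; exact ⟨R, hR⟩)
  rw [extF] at ha
  have nd : ∀ H, eval ![c, c ^ 2, c ^ 3, 1] H ≠ 0 → ¬ G ∣ H := by
    rintro _ hH ⟨r, rfl⟩
    exact hH (by rw [map_mul, h0, zero_mul])
  have n2 : ¬ G ∣ pderiv 2 (FF (K 5)) := nd _ (by rw [F2]; simp [u, hc])
  have nR : ¬ G ∣ R := fun e =>
    hp.not_unit (sqf G (hR ▸ mul_dvd_mul_left G e))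
  let D : Derivation (K 5) (MvPolynomial (Fin 4) (K 5)) (MvPolynomial (Fin 4) (K 5)) :=
    pderiv 2 (FF (K 5)) • pderiv 1 - pderiv 1 (FF (K 5)) • pderiv 2
  have hD : ∀ H, D H = pderiv 2 (FF (K 5)) * pderiv 1 H - pderiv 1 (FF (K 5)) * pderiv 2 H :=
    fun H => rfl
  have hG : G ∣ D G := by
    have e : D (G * R) = 0 := by rw [← hR, hD]; ring
    rw [Derivation.leibniz, smul_eq_mul, smul_eq_mul] at e
    refine (hp.dvd_or_dvd (a := R) ⟨-D R, by linear_combination e⟩).resolve_left nR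
  have e2 : D (pderiv 2 (FF (K 5))) = 0 := by
    rw [hD]
    conv_lhs => enter [1, 2]; rw [F2]
    conv_lhs => enter [2, 2]; rw [F2]
    simp only [map_neg, Derivation.leibniz, du, Derivation.leibniz_pow]
    simp
  have e1 : D (pderiv 1 (FF (K 5))) = pderiv 2 (FF (K 5)) * (-(2 * X 3 ^ 18)) := by
    rw [hD]
    conv_lhs => enter [1, 2]; rw [F1]
    conv_lhs => enter [2, 2]; rw [F1]
    have t2 : ∀ j : Fin 4, pderiv j (2 : MvPolynomial (Fin 4) (K 5)) = 0 := fun j =>
      Derivation.map_natCast _ 2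
    simp only [map_sub, Derivation.leibniz, du, Derivation.leibniz_pow, t2]
    simp
    left
    ring
  obtain ⟨r, hr⟩ := ha 1 2
  have e3 := congrArg D hr
  rw [map_sub, Derivation.leibniz, Derivation.leibniz, Derivation.leibniz, d5, d5, e1, e2] at e3
  simp only [smul_eq_mul, mul_zero, zero_add, add_zero, sub_zero] at e3
  have h4 : G ∣ a 2 ^ 5 * (pderiv 2 (FF (K 5)) * -(2 * X 3 ^ 18)) :=
    e3 ▸ dvd_add (dvd_mul_right _ _) (hG.mul_left _)
  have h6 : G ∣ a 2 ^ 5 := (hp.dvd_or_dvd h4).resolve_right fun e =>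
    (hp.dvd_or_dvd e).elim n2 (nd _ (by
      have : (2 : K 5) ≠ 0 := by
        have := (two.map (eval (0 : Fin 4 → K 5))).ne_zero
        rwa [map_ofNat] at this
      simpa using this))
  have h7 := (dvd_sub_right (h6.mul_left _)).1 (ha i 2)
  exact hi (hp.dvd_of_dvd_pow ((hp.dvd_or_dvd h7).resolve_left n2))

theorem result : ∃ (p : ℕ) (_ : Fact p.Prime) (n : ℕ) (F : MvPolynomial (Fin (n + 1)) (ZMod p)),
    2 ≤ n ∧ n < p ∧ FrobNonclassical F ∧ ¬ PowerGauss F ∧ ∃ f, SeparableCurve F f := by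
  refine ⟨5, inferInstance, 3, FF (ZMod 5), by norm_num, by norm_num,
    ⟨⟨20, by norm_num, ?_⟩, extF ▸ sqf, ⟨_, nc (ZMod 5)⟩⟩, q1,
    ![Polynomial.X, Polynomial.X ^ 2, Polynomial.X ^ 3, 1], ⟨0, 3, ?_⟩, ?_, 1, 2, ?_, ?_⟩
  · have hx : ∀ i : Fin 4, (X i ^ 5 : MvPolynomial (Fin 4) (ZMod 5)).IsHomogeneous 5 :=
      fun i => isHomogeneous_X_pow i 5
    have hu : ∀ i, (u (ZMod 5) i).IsHomogeneous 5 := fun i =>
      (hx i).sub ((isHomogeneous_X _ i).mul (isHomogeneous_X_pow 3 4))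
    exact ((((hx 3).pow 2).mul (((hu 0).mul (hu 2)).sub ((hu 1).pow 2))).add
      (((hx 3).mul (hx 0)).mul ((hu 0).mul (hu 1)))).sub (((hx 0).pow 2).mul ((hu 0).pow 2))
  · rw [LinearIndependent.pair_iff]
    intro s t h
    have h0 := congrArg (Polynomial.coeff · 0) h
    have h1 := congrArg (Polynomial.coeff · 1) h
    simp [along, Polynomial.coeff_one] at h0 h1
    exact ⟨h1, h0⟩
  · simp [along, FF, u]
    ring
  · obtain ⟨c, hc⟩ := exc
    intro h
    have := congrArg (Polynomial.eval c) h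
    rw [F2] at this
    simp [along, u] at this
    exact one_ne_zero (by linear_combination -hc - this : (1 : K 5) = 0)
  · rintro ⟨a, b, hb, h⟩
    obtain ⟨c, hc⟩ := exc
    have hne : (Polynomial.X ^ 5 - Polynomial.X : Polynomial (K 5)) ≠ 0 := fun e => by
      have := congrArg (Polynomial.eval c) e
      simp [hc] at this
    have h' : (Polynomial.X ^ 5 + 2 * Polynomial.X) * b ^ 5 = -a ^ 5 := by
      refine mul_left_cancel₀ hne ?_
      rw [F1, F2] at h
      simp [along, u] at h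
      linear_combination h
    have p5 : (5 : Polynomial (K 5)) = 0 := by
      exact_mod_cast CharP.cast_eq_zero (Polynomial (K 5)) 5
    have := congrArg Polynomial.derivative h'
    simp [Polynomial.derivative_pow, map_ofNat, p5] at this
    have t2 : (2 : Polynomial (K 5)) * 3 = 1 := by linear_combination p5
    rcases this with e | e
    · rw [e, zero_mul] at t2
      exact zero_ne_one t2
    · exact hb e

end Pool.Agent.Results.MP_291982_ag.SeparableGauss
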